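import Pool.Agent.N848.OL.Stm
import Pool.Agent.N899.LT.IND

/-!
OL/IDP: the property `PPP` for composites `k F`, by induction over the degree of `F`
(the analogue for odd `p` of `Pool.Agent.N899.LT.IND` of helper899).
-/

set_option autoImplicit false

namespace Pool.Agent.N733.OL

open NumberField IsDedekindDomain Module Pool.Agent.H637R2.Leo Pool.Agent.Y18.LC Pool.Agent.N848.OL
open Pool.Agent.N848.LT (Ab NS NSQ S_UP S_INT)
open Pool.Agent.N899.LT (int_bij exists_above unram_sub)

/-- degree one -/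
theorem vp_up {p : ℕ} {k K : Type} [Field k] [NumberField k] [Field K] [NumberField K] [Algebra k K]
    (h : Function.Surjective (algebraMap k K)) (hk : VP p k) (b : K) (hb : b ≠ 0)
    (hU : ∀ v : HeightOneSpectrum (𝓞 K), UnP p v b) : ∃ y : K, b = y ^ p := by
  obtain ⟨a, rfl⟩ := h b
  have ha : a ≠ 0 := by
    rintro rfl
    exact hb (map_zero _)
  obtain ⟨c, hc⟩ := hk a ha fun v => by
    obtain ⟨w, hw⟩ := exists_above h v
    obtain ⟨y, h1, h2⟩ := hU w
    obtain ⟨z, rfl⟩ := h y
    refine ⟨z, ?_, ?_⟩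
    · rw [← hw]
      simpa only [map_mul, map_pow] using h1
    · rw [← hw, ← hw ((p : k) ^ 2)]
      simpa only [map_mul, map_pow, map_sub, map_one, map_natCast] using h2
  exact ⟨algebraMap k K c, by rw [hc, map_pow]⟩

/-- a subextension of degree `p` at the top of a Galois extension of degree `p ^ (r + 1)` -/
theorem exists_top (p : ℕ) [hfact : Fact p.Prime] (r : ℕ) (F : Type) [Field F] [NumberField F]
    (hG : IsGalois ℚ F) (hd : finrank ℚ F = p ^ (r + 1)) :
    ∃ (F₁ : IntermediateField ℚ F), IsGalois ℚ F₁ ∧ finrank ℚ F₁ = p ^ r ∧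
      finrank F₁ F = p ∧ IsGalois F₁ F := by
  have hp1 : 1 < p := hfact.out.one_lt
  have hcard : Nat.card (F ≃ₐ[ℚ] F) = p ^ (r + 1) := by
    rw [IsGalois.card_aut_eq_finrank, hd]
  have hp : IsPGroup p (F ≃ₐ[ℚ] F) := IsPGroup.of_card hcard
  have hnt : Nontrivial (F ≃ₐ[ℚ] F) := by
    rw [← Finite.one_lt_card_iff_nontrivial, hcard]
    exact Nat.one_lt_pow (Nat.succ_ne_zero r) hp1
  have hcn : Nontrivial (Subgroup.center (F ≃ₐ[ℚ] F)) := hp.center_nontrivial
  have hpc : IsPGroup p (Subgroup.center (F ≃ₐ[ℚ] F)) := hp.to_subgroup _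
  obtain ⟨n, hn⟩ := IsPGroup.iff_card.1 hpc
  have hn0 : n ≠ 0 := by
    rintro rfl
    rw [pow_zero] at hn
    have h1 := Finite.one_lt_card_iff_nontrivial.2 hcn
    omega
  have hdvd : p ∣ Nat.card (Subgroup.center (F ≃ₐ[ℚ] F)) := by
    rw [hn]
    exact dvd_pow_self p hn0
  obtain ⟨z, hz⟩ := exists_prime_orderOf_dvd_card' p hdvd
  obtain ⟨g, hgdef⟩ : ∃ g : F ≃ₐ[ℚ] F, g = (z : F ≃ₐ[ℚ] F) := ⟨_, rfl⟩
  have hg2 : orderOf g = p := by
    rw [hgdef, Subgroup.orderOf_coe, hz]
  have hgc : g ∈ Subgroup.center (F ≃ₐ[ℚ] F) := by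
    rw [hgdef]
    exact z.2
  have hnorm : (Subgroup.zpowers g).Normal := by
    constructor
    rintro x hx y
    obtain ⟨j, rfl⟩ := Subgroup.mem_zpowers_iff.1 hx
    have h1 : g ^ j ∈ Subgroup.center (F ≃ₐ[ℚ] F) := zpow_mem hgc j
    have h2 : y * g ^ j * y⁻¹ = g ^ j := by
      rw [(Subgroup.mem_center_iff.1 h1 y), mul_inv_cancel_right]
    rw [h2]
    exact zpow_mem (Subgroup.mem_zpowers g) j
  obtain ⟨F₁, hF₁⟩ : ∃ F₁ : IntermediateField ℚ F, F₁ = IntermediateField.fixedField (Subgroup.zpowers g) :=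
    ⟨_, rfl⟩
  have hgal : IsGalois ℚ F₁ := by
    rw [hF₁]
    exact IsGalois.of_fixedField_normal_subgroup _
  have h2 : finrank F₁ F = p := by
    rw [hF₁, IntermediateField.finrank_fixedField_eq_card, Nat.card_zpowers, hg2]
  have hr : finrank ℚ F₁ = p ^ r := by
    have h3 : finrank ℚ F₁ * finrank F₁ F = finrank ℚ F := finrank_mul_finrank ℚ F₁ F
    rw [h2, hd, pow_succ] at h3
    exact Nat.eq_of_mul_eq_mul_right (by omega) h3
  exact ⟨F₁, hgal, hr, h2, IsGalois.tower_top_of_isGalois ℚ F₁ F⟩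

/-- the same with an abstract field -/
theorem exists_top' (p : ℕ) [Fact p.Prime] (r : ℕ) (F : Type) [Field F] [NumberField F] (hG : IsGalois ℚ F)
    (hd : finrank ℚ F = p ^ (r + 1)) :
    ∃ (F₁ : Type) (_ : Field F₁) (_ : NumberField F₁) (_ : Algebra F₁ F),
      IsGalois ℚ F₁ ∧ finrank ℚ F₁ = p ^ r ∧ finrank F₁ F = p ∧ IsGalois F₁ F := by
  obtain ⟨F₁, h1, h2, h3, h4⟩ := exists_top p r F hG hd
  exact ⟨F₁, inferInstance, inferInstance, inferInstance, h1, h2, h3, h4⟩

/-- one step of degree `p` -/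
theorem step (hSTP : S_STP) (hNSP : S_NSP) (hDGP : S_DGP) (hMUU : S_MUU) (p : ℕ) [hfact : Fact p.Prime]
    (hp : 2 < p) (r : ℕ)
    (k F₁ F K₁ K : Type) [Field k] [NumberField k] [Field F₁] [NumberField F₁] [Field F]
    [NumberField F] [Field K₁] [NumberField K₁] [Field K] [NumberField K] [Algebra k K]
    [Algebra k K₁] [Algebra F K] [Algebra F₁ F] [Algebra F₁ K₁] [Algebra F₁ K] [Algebra K₁ K]
    [IsScalarTower k K₁ K] [IsScalarTower F₁ F K] [IsScalarTower F₁ K₁ K]
    (hG : IsGalois ℚ F) (hd : finrank ℚ F = p ^ (r + 1)) (hG₁ : IsGalois ℚ F₁)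
    (hd₁ : finrank ℚ F₁ = p ^ r) (hG₂ : IsGalois F₁ F)
    (htop : IntermediateField.adjoin k (Set.range (algebraMap F K)) = ⊤)
    (htop₁ : IntermediateField.adjoin k (Set.range (algebraMap F₁ K₁)) = ⊤)
    (hodd : ¬ p ∣ finrank ℚ k) (hq : ∀ q : ℕ, q.Prime → q ≠ p → Unram F q ∨ NSQ k q)
    (hmu : NoMu p k) (h2 : finrank F₁ F = p) (ih : PPP p F₁ K₁) : PPP p F K := by
  obtain ⟨h3, h4, h4'⟩ := hDGP p (r + 1) k F K hG hd htop hodd
  obtain ⟨h5, h6, h6'⟩ := hDGP p r k F₁ K₁ hG₁ hd₁ htop₁ hodd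
  have hp0 : 0 < p := by omega
  have h7 : finrank K₁ K = p := by
    have h8 : finrank k K₁ * finrank K₁ K = finrank k K := finrank_mul_finrank k K₁ K
    rw [h6, h4, pow_succ] at h8
    exact Nat.eq_of_mul_eq_mul_left (pow_pos hp0 r) h8
  have h9 : IsGalois K₁ K := IsGalois.tower_top_of_isGalois k K₁ K
  have h10 : NoMu p K := hMUU p (r + 1) k K h4' h4 hmu
  have h11 : IntermediateField.adjoin K₁ (Set.range (algebraMap F K)) = ⊤ := by
    rw [eq_top_iff]
    rintro x -
    have hx : x ∈ IntermediateField.adjoin k (Set.range (algebraMap F K)) := by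
      rw [htop]; exact IntermediateField.mem_top
    have hle : IntermediateField.adjoin k (Set.range (algebraMap F K)) ≤
        (IntermediateField.adjoin K₁ (Set.range (algebraMap F K))).restrictScalars k := by
      rw [IntermediateField.adjoin_le_iff]
      intro y hy
      exact IntermediateField.subset_adjoin K₁ _ hy
    exact hle hx
  refine hSTP p hp F₁ F K₁ K hG hG₂ h2 h9 h7 h11 (by rw [h5]; exact hodd) h10 ?_ ih
  intro q hqp hqne
  rcases hq q hqp hqne with h | h
  · exact Or.inl h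
  · exact Or.inr fun u hu => hNSP p r k F₁ K₁ hG₁ hd₁ htop₁ hodd q hqp h u hu

/-- OL/IDP -/
theorem t_IDP (hSTP : S_STP) (hNSP : S_NSP) (hDGP : S_DGP) (hMUU : S_MUU) : S_IDP := by
  intro p hfact hp r
  induction r with
  | zero =>
    intro k F K _ _ _ _ _ _ _ _ hG hd htop hodd hq hmu hk
    rw [pow_zero] at hd
    have hsF : Function.Surjective (algebraMap ℚ F) := by
      have h1 : (⊥ : Subalgebra ℚ F) = ⊤ := Subalgebra.bot_eq_top_of_finrank_eq_one hd
      exact (Algebra.bijective_algebraMap_iff.2 h1.symm).2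
    have hsub : Set.range (algebraMap F K) ⊆ ((⊥ : IntermediateField k K) : Set K) := by
      rintro _ ⟨x, rfl⟩
      obtain ⟨c, rfl⟩ := hsF x
      rw [SetLike.mem_coe, IntermediateField.mem_bot]
      refine ⟨(c : k), ?_⟩
      rw [map_ratCast, eq_ratCast, map_ratCast]
    have hbot : (⊥ : IntermediateField k K) = ⊤ := by
      rw [← htop, eq_comm, ← le_bot_iff]
      exact IntermediateField.adjoin_le_iff.2 hsub
    have hs : Function.Surjective (algebraMap k K) := by
      intro x
      have hx : x ∈ (⊥ : IntermediateField k K) := by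
        rw [hbot]
        exact IntermediateField.mem_top
      exact IntermediateField.mem_bot.1 hx
    intro b hb hU _
    exact vp_up hs hk b hb hU
  | succ r ih =>
    intro k F K _ _ _ _ _ _ _ _ hG hd htop hodd hq hmu hk
    obtain ⟨F₁, _, _, _, hG₁, hd₁, h2, hG₂⟩ := exists_top' p r F hG hd
    let E : IntermediateField k K :=
      IntermediateField.adjoin k (Set.range fun x : F₁ => algebraMap F K (algebraMap F₁ F x))
    let φ : F₁ →+* E :=
      { toFun := fun x => ⟨algebraMap F K (algebraMap F₁ F x),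
          IntermediateField.subset_adjoin k _ ⟨x, rfl⟩⟩
        map_one' := Subtype.ext (by simp)
        map_mul' := fun x y => Subtype.ext (by simp)
        map_zero' := Subtype.ext (by simp)
        map_add' := fun x y => Subtype.ext (by simp) }
    let a1 : Algebra F₁ E := φ.toAlgebra
    let a2 : Algebra F₁ K := ((algebraMap F K).comp (algebraMap F₁ F)).toAlgebra
    have t1 : IsScalarTower F₁ F K := IsScalarTower.of_algebraMap_eq fun _ => rfl
    have t2 : IsScalarTower F₁ E K := IsScalarTower.of_algebraMap_eq fun _ => rfl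
    have htop₁ : IntermediateField.adjoin k (Set.range (algebraMap F₁ E)) = ⊤ := by
      have h3 : (IntermediateField.adjoin k (Set.range (algebraMap F₁ E))).map E.val = E := by
        rw [IntermediateField.adjoin_map]
        have h4 : (E.val : E → K) '' Set.range (algebraMap F₁ E) =
            Set.range fun x : F₁ => algebraMap F K (algebraMap F₁ F x) := by
          rw [← Set.range_comp]
          rfl
        rw [h4]
      rw [eq_top_iff]
      rintro ⟨x, hx⟩ -
      have h5 : x ∈ (IntermediateField.adjoin k (Set.range (algebraMap F₁ E))).map E.val := by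
        rw [h3]
        exact hx
      obtain ⟨y, hy, hyx⟩ := (IntermediateField.mem_map _).1 h5
      have h6 : y = ⟨x, hx⟩ := Subtype.ext hyx
      rw [← h6]
      exact hy
    have hPP : PPP p F₁ E := ih k F₁ E hG₁ hd₁ htop₁ hodd
      (fun q hqp hqne => (hq q hqp hqne).imp (fun h => unram_sub hqp.ne_zero h) id) hmu hk
    exact step hSTP hNSP hDGP hMUU p hp r k F₁ F E K hG hd hG₁ hd₁ hG₂ htop htop₁ hodd hq hmu h2 hPP

end Pool.Agent.N733.OL
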